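import Pool.Agent.TH615.NRC.Count

set_option autoImplicit false

/-! # Normal rational curves through an arc -/

namespace Pool.Agent.TH615.NRC

open Finset
open scoped LinearAlgebra.Projectivization

/-- `C` is a normal rational curve of `PG(k - 1, q)`: for some invertible linear map `g` its points
are the points `[g x]` where `x` runs over the vectors `(t^(k-1), ..., t, 1)` and `(1, 0, ..., 0)`. -/
def IsNRC {F : Type} [Field F] {k : ℕ} (C : Set (ℙ F (Fin k → F))) : Prop :=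
  ∃ g : (Fin k → F) ≃ₗ[F] (Fin k → F), ∀ P : ℙ F (Fin k → F),
    P ∈ C ↔ ∃ x, IsStd x ∧ g x ∈ P.submodule

open Classical in
/-- `A` is an arc of `PG(k - 1, q)` with at least `k` points: every hyperplane (the kernel of a
nonzero linear form) contains less than `k` points of `A`. -/
def IsArc {F : Type} [Field F] {k : ℕ} (A : Finset (ℙ F (Fin k → F))) : Prop :=
  k ≤ A.card ∧ ∀ f : (Fin k → F) →ₗ[F] F, f ≠ 0 → (A.filter fun P => f P.rep = 0).card < k

section
variable {F : Type} [Field F] {k : ℕ}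

theorem cone_smul {g : (Fin k → F) ≃ₗ[F] (Fin k → F)} {y : Fin k → F} (hy : y ∈ cone g) {a : F}
    (ha : a ≠ 0) : a • y ∈ cone g := by
  obtain ⟨h0, x, hx, c, h⟩ := hy
  exact ⟨smul_ne_zero ha h0, x, hx, a * c, by rw [h, smul_smul]⟩

theorem cone_smul_iff {g : (Fin k → F) ≃ₗ[F] (Fin k → F)} {y : Fin k → F} {a : F}
    (ha : a ≠ 0) : a • y ∈ cone g ↔ y ∈ cone g := by
  refine ⟨fun h => ?_, fun h => cone_smul h ha⟩
  have := cone_smul h (inv_ne_zero ha)
  rwa [smul_smul, inv_mul_cancel₀ ha, one_smul] at this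

theorem mem_cone_trans (g T : (Fin k → F) ≃ₗ[F] (Fin k → F)) (y : Fin k → F) :
    y ∈ cone (g.trans T) ↔ T.symm y ∈ cone g := by
  constructor
  · rintro ⟨h0, x, hx, c, h⟩
    refine ⟨by simpa using h0, x, hx, c, ?_⟩
    rw [h, map_smul, LinearEquiv.trans_apply, LinearEquiv.symm_apply_apply]
  · rintro ⟨h0, x, hx, c, h⟩
    refine ⟨by simpa using h0, x, hx, c, ?_⟩
    rw [LinearEquiv.trans_apply, ← map_smul, ← h, LinearEquiv.apply_symm_apply]

theorem std_ne {x : Fin k → F} (hk : 1 ≤ k) (hx : IsStd x) : x ≠ 0 := by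
  rintro rfl
  rcases hx with ⟨t, ht⟩ | h
  · have := ht ⟨k - 1, by omega⟩
    simp at this
  · have := h ⟨0, by omega⟩
    simp at this

theorem rep_mem_cone (hk : 1 ≤ k) (g : (Fin k → F) ≃ₗ[F] (Fin k → F)) (P : ℙ F (Fin k → F)) :
    P.rep ∈ cone g ↔ ∃ x, IsStd x ∧ g x ∈ P.submodule := by
  constructor
  · rintro ⟨h0, x, hx, c, h⟩
    refine ⟨x, hx, ?_⟩
    have hc : c ≠ 0 := by
      rintro rfl
      rw [zero_smul] at h
      exact h0 h
    rw [Projectivization.submodule_eq, Submodule.mem_span_singleton]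
    exact ⟨c⁻¹, by rw [h, smul_smul, inv_mul_cancel₀ hc, one_smul]⟩
  · rintro ⟨x, hx, h⟩
    rw [Projectivization.submodule_eq, Submodule.mem_span_singleton] at h
    obtain ⟨a, ha⟩ := h
    have ha0 : a ≠ 0 := by
      rintro rfl
      rw [zero_smul] at ha
      exact std_ne hk hx (by simpa using ha.symm)
    exact ⟨P.rep_nonzero, x, hx, a⁻¹, by rw [← ha, smul_smul, inv_mul_cancel₀ ha0, one_smul]⟩

theorem isNRC_iff (hk : 1 ≤ k) (C : Set (ℙ F (Fin k → F))) :
    IsNRC C ↔ ∃ g : (Fin k → F) ≃ₗ[F] (Fin k → F), ∀ P : ℙ F (Fin k → F),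
      P ∈ C ↔ P.rep ∈ cone g := by
  unfold IsNRC
  simp_rw [rep_mem_cone hk]

end

section
variable {F : Type} [Field F] {m : ℕ}

theorem ncard_arc (A : Set (ℙ F (Fin (m + 2) → F)))
    (T : (Fin (m + 2) → F) ≃ₗ[F] (Fin (m + 2) → F))
    (hT : ∀ i, ∃ P ∈ A, ∃ c : F, (Pi.single i (1 : F) : Fin (m + 2) → F) = c • T.symm P.rep) :
    {C | IsNRC C ∧ A ⊆ C} = (fun K => {P : ℙ F (Fin (m + 2) → F) | T.symm P.rep ∈ K}) ''
      Fam ((fun P : ℙ F (Fin (m + 2) → F) => T.symm P.rep) '' A) ∧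
    Set.ncard {C | IsNRC C ∧ A ⊆ C} =
      (Fam ((fun P : ℙ F (Fin (m + 2) → F) => T.symm P.rep) '' A)).ncard := by
  have h1 : {C | IsNRC C ∧ A ⊆ C} = (fun K => {P : ℙ F (Fin (m + 2) → F) | T.symm P.rep ∈ K}) ''
      Fam ((fun P : ℙ F (Fin (m + 2) → F) => T.symm P.rep) '' A) := by
    ext C
    constructor
    · rintro ⟨hC, hA⟩
      rw [isNRC_iff (by omega)] at hC
      obtain ⟨g, hg⟩ := hC
      have hmem : ∀ P : ℙ F (Fin (m + 2) → F), P ∈ C ↔ T.symm P.rep ∈ cone (g.trans T.symm) := by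
        intro P
        rw [hg, mem_cone_trans, LinearEquiv.symm_symm, LinearEquiv.apply_symm_apply]
      refine ⟨cone (g.trans T.symm), ⟨⟨_, rfl⟩, ?_, ?_⟩, ?_⟩
      · intro i
        obtain ⟨P, hP, c, hc⟩ := hT i
        have hc0 : c ≠ 0 := by
          rintro rfl
          rw [zero_smul] at hc
          simp at hc
        rw [hc, cone_smul_iff hc0, ← hmem]
        exact hA hP
      · rintro y ⟨P, hP, rfl⟩
        exact (hmem P).mp (hA hP)
      · ext P
        exact (hmem P).symm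
    · rintro ⟨K, ⟨⟨g, rfl⟩, h1, h2⟩, rfl⟩
      refine ⟨?_, ?_⟩
      · rw [isNRC_iff (by omega)]
        refine ⟨g.trans T, fun P => ?_⟩
        rw [mem_cone_trans]
        rfl
      · intro P hP
        exact h2 ⟨P, hP, rfl⟩
  refine ⟨h1, ?_⟩
  rw [h1]
  apply Set.InjOn.ncard_image
  have key : ∀ g g' : (Fin (m + 2) → F) ≃ₗ[F] (Fin (m + 2) → F),
      {P : ℙ F (Fin (m + 2) → F) | T.symm P.rep ∈ cone g} =
        {P : ℙ F (Fin (m + 2) → F) | T.symm P.rep ∈ cone g'} → cone g ⊆ cone g' := by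
    intro g g' h y hy
    have hTy : T y ≠ 0 := by
      have := hy.1
      simpa using this
    obtain ⟨a, ha⟩ := Projectivization.exists_smul_eq_mk_rep F (T y) hTy
    have h2 : T.symm (Projectivization.mk F (T y) hTy).rep = (a : F) • y := by
      rw [← ha, Units.smul_def, map_smul, LinearEquiv.symm_apply_apply]
    have h3 : Projectivization.mk F (T y) hTy ∈
        {P : ℙ F (Fin (m + 2) → F) | T.symm P.rep ∈ cone g} := by
      show T.symm (Projectivization.mk F (T y) hTy).rep ∈ cone g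
      rw [h2]
      exact cone_smul hy a.ne_zero
    rw [h] at h3
    have h4 : T.symm (Projectivization.mk F (T y) hTy).rep ∈ cone g' := h3
    rw [h2, cone_smul_iff a.ne_zero] at h4
    exact h4
  rintro _ ⟨⟨g, rfl⟩, -, -⟩ _ ⟨⟨g', rfl⟩, -, -⟩ h
  exact Set.Subset.antisymm (key g g' h) (key g' g h.symm)

theorem arc_contra {A : Finset (ℙ F (Fin (m + 2) → F))} (hA : IsArc A)
    (T : (Fin (m + 2) → F) ≃ₗ[F] (Fin (m + 2) → F)) (f : (Fin (m + 2) → F) →ₗ[F] F) (hf : f ≠ 0)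
    (S : Finset (ℙ F (Fin (m + 2) → F))) (hSA : S ⊆ A) (hS : m + 2 ≤ S.card)
    (h0 : ∀ P ∈ S, f (T.symm P.rep) = 0) : False := by
  classical
  have h1 : (f ∘ₗ T.symm.toLinearMap) ≠ 0 := by
    intro h
    apply hf
    ext x
    have := congrArg (fun φ => φ (T (Pi.single x 1))) h
    simpa using this
  have h2 := hA.2 _ h1
  have h3 : S ⊆ A.filter (fun P => (f ∘ₗ T.symm.toLinearMap) P.rep = 0) := by
    intro P hP
    rw [mem_filter]
    exact ⟨hSA hP, h0 P hP⟩
  have h4 := card_le_card h3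
  have h5 : (A.filter (fun P => (f ∘ₗ T.symm.toLinearMap) P.rep = 0)).card < m + 2 := by
    convert h2
  omega

theorem exists_T {A : Finset (ℙ F (Fin (m + 2) → F))} (hA : IsArc A)
    (e : Fin (m + 2) → ℙ F (Fin (m + 2) → F)) (he : Function.Injective e) (heA : ∀ i, e i ∈ A) :
    ∃ T : (Fin (m + 2) → F) ≃ₗ[F] (Fin (m + 2) → F),
      ∀ i, T.symm (e i).rep = (Pi.single i (1 : F) : Fin (m + 2) → F) := by
  classical
  set T0 : (Fin (m + 2) → F) →ₗ[F] (Fin (m + 2) → F) :=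
    ∑ i, (LinearMap.proj i : (Fin (m + 2) → F) →ₗ[F] F).smulRight (e i).rep with hT0
  have hT0s : ∀ i, T0 (Pi.single i (1 : F)) = (e i).rep := by
    intro i
    rw [hT0]
    simp [Pi.single_apply]
  have hsurj : Function.Surjective T0 := by
    rw [← LinearMap.range_eq_top]
    by_contra hne
    obtain ⟨f, hf, hle⟩ := Submodule.exists_le_ker_of_lt_top _ (lt_top_iff_ne_top.mpr hne)
    refine arc_contra hA (LinearEquiv.refl F _) f hf (univ.image e) ?_ ?_ ?_
    · intro P hP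
      obtain ⟨i, -, rfl⟩ := mem_image.mp hP
      exact heA i
    · rw [card_image_of_injective _ he, card_univ, Fintype.card_fin]
    · intro P hP
      obtain ⟨i, -, rfl⟩ := mem_image.mp hP
      have : (e i).rep ∈ LinearMap.range T0 := ⟨_, hT0s i⟩
      exact hle this
  refine ⟨LinearEquiv.ofBijective T0 ⟨LinearMap.injective_iff_surjective.mpr hsurj, hsurj⟩,
    fun i => ?_⟩
  rw [LinearEquiv.symm_apply_eq, LinearEquiv.ofBijective_apply, hT0s]

/-- the diagonal map -/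
theorem exists_T1 (T : (Fin (m + 2) → F) ≃ₗ[F] (Fin (m + 2) → F)) (w : Fin (m + 2) → F)
    (hw : ∀ i, w i ≠ 0) : ∃ T1 : (Fin (m + 2) → F) ≃ₗ[F] (Fin (m + 2) → F),
      ∀ y i, T1.symm y i = (w i)⁻¹ * T.symm y i := by
  refine ⟨(LinearEquiv.piCongrRight fun i => LinearEquiv.smulOfNeZero F F (w i) (hw i)).trans T, ?_⟩
  intro y i
  rw [LinearEquiv.trans_symm, LinearEquiv.trans_apply]
  have : ∀ z : Fin (m + 2) → F, (LinearEquiv.piCongrRight fun i =>
      LinearEquiv.smulOfNeZero F F (w i) (hw i)).symm z = fun i => (w i)⁻¹ * z i := by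
    intro z
    rw [LinearEquiv.symm_apply_eq]
    funext i
    simp [hw i]
  rw [this]


theorem fam_congr (W W' : Set (Fin (m + 2) → F))
    (h : ∀ g : (Fin (m + 2) → F) ≃ₗ[F] (Fin (m + 2) → F),
      (∀ i, (Pi.single i (1 : F) : Fin (m + 2) → F) ∈ cone g) → (W ⊆ cone g ↔ W' ⊆ cone g)) :
    Fam W = Fam W' := by
  ext K
  constructor
  · rintro ⟨⟨g, rfl⟩, h1, h2⟩
    exact ⟨⟨g, rfl⟩, h1, (h g h1).mp h2⟩
  · rintro ⟨⟨g, rfl⟩, h1, h2⟩
    exact ⟨⟨g, rfl⟩, h1, (h g h1).mpr h2⟩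

theorem main0 [Fintype F] (hq : m + 2 < Fintype.card F) (A : Finset (ℙ F (Fin (m + 2) → F)))
    (hA : IsArc A) (hc : A.card = m + 2) :
    Set.ncard {C | IsNRC C ∧ (A : Set (ℙ F (Fin (m + 2) → F))) ⊆ C} =
      (Fintype.card F - 1) ^ m * (Fintype.card F - 1).descFactorial m := by
  classical
  set e := (A.equivFinOfCardEq hc).symm with he
  obtain ⟨T, hT⟩ := exists_T hA (fun i => (e i).1)
    (fun i j h => e.injective (Subtype.ext h)) (fun i => (e i).2)
  rw [(ncard_arc A T (fun i => ⟨(e i).1, (e i).2, 1, by rw [one_smul, hT]⟩)).2, ← count0 hq]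
  congr 1
  apply fam_congr
  intro g hg
  refine ⟨fun _ => Set.empty_subset _, fun _ => ?_⟩
  rintro y ⟨P, hP, rfl⟩
  obtain ⟨i, hi⟩ := e.surjective ⟨P, hP⟩
  have h1 := hT i
  simp only [hi] at h1
  show T.symm P.rep ∈ cone g
  rw [h1]
  exact hg i

theorem frame {A : Finset (ℙ F (Fin (m + 2) → F))} (hA : IsArc A)
    (e : Fin (m + 2) → ℙ F (Fin (m + 2) → F)) (he : Function.Injective e) (heA : ∀ i, e i ∈ A)
    (P : ℙ F (Fin (m + 2) → F)) (hPA : P ∈ A) (hP : ∀ i, e i ≠ P) :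
    ∃ (T : (Fin (m + 2) → F) ≃ₗ[F] (Fin (m + 2) → F)) (w : Fin (m + 2) → F), (∀ i, w i ≠ 0) ∧
      (∀ i, T.symm (e i).rep = (w i)⁻¹ • (Pi.single i (1 : F) : Fin (m + 2) → F)) ∧
      T.symm P.rep = fun _ => 1 := by
  classical
  obtain ⟨T, hT⟩ := exists_T hA e he heA
  have hw : ∀ i, T.symm P.rep i ≠ 0 := by
    intro i hi
    refine arc_contra hA T (LinearMap.proj i) ?_ (insert P ((univ.erase i).image e)) ?_ ?_ ?_
    · intro h
      have := congrArg (fun φ => φ (Pi.single i (1 : F))) h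
      simp at this
    · intro Q hQ
      rcases mem_insert.mp hQ with rfl | hQ
      · exact hPA
      · obtain ⟨j, -, rfl⟩ := mem_image.mp hQ
        exact heA j
    · rw [card_insert_of_notMem, card_image_of_injective _ he, card_erase_of_mem (mem_univ i),
        card_univ, Fintype.card_fin]
      · omega
      · intro h
        obtain ⟨j, -, h⟩ := mem_image.mp h
        exact hP j h
    · intro Q hQ
      rcases mem_insert.mp hQ with rfl | hQ
      · exact hi
      · obtain ⟨j, hj, rfl⟩ := mem_image.mp hQ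
        rw [hT, LinearMap.proj_apply, Pi.single_eq_of_ne (ne_of_mem_erase hj).symm]
  obtain ⟨T1, hT1⟩ := exists_T1 T (T.symm P.rep) hw
  refine ⟨T1, T.symm P.rep, hw, fun i => ?_, ?_⟩
  · funext l
    rw [hT1, hT]
    simp only [Pi.smul_apply, smul_eq_mul]
    by_cases hl : l = i
    · subst hl; rfl
    · rw [Pi.single_eq_of_ne hl, mul_zero, mul_zero]
  · funext l
    rw [hT1, inv_mul_cancel₀ (hw l)]

theorem main1 [Fintype F] (hq : m + 2 < Fintype.card F) (A : Finset (ℙ F (Fin (m + 2) → F)))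
    (hA : IsArc A) (hc : A.card = m + 3) :
    Set.ncard {C | IsNRC C ∧ (A : Set (ℙ F (Fin (m + 2) → F))) ⊆ C} =
      (Fintype.card F - 2).descFactorial m := by
  classical
  obtain ⟨B, hBA, hB⟩ := Finset.exists_subset_card_eq (s := A) (n := m + 2) (by omega)
  set e := (B.equivFinOfCardEq hB).symm with he
  have h1 : (A \ B).card = 1 := by
    rw [card_sdiff_of_subset hBA]; omega
  obtain ⟨P, hP⟩ := card_eq_one.mp h1
  have hPm : P ∈ A \ B := by rw [hP]; exact mem_singleton_self P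
  rw [mem_sdiff] at hPm
  obtain ⟨T, w, hw, hT, hTP⟩ := frame hA (fun i => (e i).1)
    (fun i j h => e.injective (Subtype.ext h)) (fun i => hBA (e i).2) P hPm.1
    (fun i h => hPm.2 (by rw [← h]; exact (e i).2))
  rw [(ncard_arc A T (fun i => ⟨(e i).1, hBA (e i).2, w i, by
    rw [hT, smul_smul, mul_inv_cancel₀ (hw i), one_smul]⟩)).2, ← count1 hq]
  congr 1
  apply fam_congr
  intro g hg
  constructor
  · intro h
    rw [Set.singleton_subset_iff]
    exact h ⟨P, hPm.1, hTP⟩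
  · intro h
    rw [Set.singleton_subset_iff] at h
    rintro y ⟨Q, hQ, rfl⟩
    show T.symm Q.rep ∈ cone g
    by_cases hQB : Q ∈ B
    · obtain ⟨i, hi⟩ := e.surjective ⟨Q, hQB⟩
      have h1 := hT i
      simp only [hi] at h1
      rw [h1]
      exact cone_smul (hg i) (inv_ne_zero (hw i))
    · have : Q ∈ A \ B := mem_sdiff.mpr ⟨hQ, hQB⟩
      rw [hP, mem_singleton] at this
      rw [this, hTP]
      exact h

theorem frame2 {A : Finset (ℙ F (Fin (m + 2) → F))} (hA : IsArc A)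
    (e : Fin (m + 2) → ℙ F (Fin (m + 2) → F)) (he : Function.Injective e) (heA : ∀ i, e i ∈ A)
    (P Q : ℙ F (Fin (m + 2) → F)) (hPA : P ∈ A) (hQA : Q ∈ A) (hPe : ∀ i, e i ≠ P)
    (hQe : ∀ i, e i ≠ Q) (hPQ : P ≠ Q) (T : (Fin (m + 2) → F) ≃ₗ[F] (Fin (m + 2) → F))
    (w : Fin (m + 2) → F)
    (hT : ∀ i, T.symm (e i).rep = (w i)⁻¹ • (Pi.single i (1 : F) : Fin (m + 2) → F))
    (hTP : T.symm P.rep = fun _ => 1) :
    (∀ i, T.symm Q.rep i ≠ 0) ∧ ∀ a b, a ≠ b → T.symm Q.rep a ≠ T.symm Q.rep b := by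
  classical
  constructor
  · intro i hi
    refine arc_contra hA T (LinearMap.proj i) ?_
      (insert Q ((univ.erase i).image e)) ?_ ?_ ?_
    · intro h
      have := congrArg (fun φ => φ (Pi.single i (1 : F))) h
      simp at this
    · intro R hR
      rcases mem_insert.mp hR with rfl | hR
      · exact hQA
      · obtain ⟨j, -, rfl⟩ := mem_image.mp hR
        exact heA j
    · rw [card_insert_of_notMem, card_image_of_injective _ he, card_erase_of_mem (mem_univ i),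
        card_univ, Fintype.card_fin]
      · omega
      · intro h
        obtain ⟨j, -, h⟩ := mem_image.mp h
        exact hQe j h
    · intro R hR
      rcases mem_insert.mp hR with rfl | hR
      · exact hi
      · obtain ⟨j, hj, rfl⟩ := mem_image.mp hR
        rw [hT, LinearMap.proj_apply, Pi.smul_apply,
          Pi.single_eq_of_ne (ne_of_mem_erase hj).symm, smul_zero]
  · intro a b hab hi
    refine arc_contra hA T ((LinearMap.proj a : (Fin (m + 2) → F) →ₗ[F] F) - LinearMap.proj b) ?_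
      (insert P (insert Q (((univ.erase a).erase b).image e))) ?_ ?_ ?_
    · intro h
      have := congrArg (fun φ => φ (Pi.single a (1 : F))) h
      simp [Pi.single_eq_of_ne (Ne.symm hab)] at this
    · intro R hR
      rcases mem_insert.mp hR with rfl | hR
      · exact hPA
      rcases mem_insert.mp hR with rfl | hR
      · exact hQA
      · obtain ⟨j, -, rfl⟩ := mem_image.mp hR
        exact heA j
    · rw [card_insert_of_notMem, card_insert_of_notMem, card_image_of_injective _ he,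
        card_erase_of_mem (mem_erase.mpr ⟨Ne.symm hab, mem_univ b⟩),
        card_erase_of_mem (mem_univ _), card_univ, Fintype.card_fin]
      · omega
      · intro h
        obtain ⟨j, -, h⟩ := mem_image.mp h
        exact hQe j h
      · intro h
        rcases mem_insert.mp h with h | h
        · exact hPQ h
        · obtain ⟨j, -, h⟩ := mem_image.mp h
          exact hPe j h
    · intro R hR
      rcases mem_insert.mp hR with rfl | hR
      · rw [hTP]; simp
      rcases mem_insert.mp hR with rfl | hR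
      · simp [hi]
      · obtain ⟨j, hj, rfl⟩ := mem_image.mp hR
        have h1 := (mem_erase.mp hj).1
        have h0 := (mem_erase.mp (mem_erase.mp hj).2).1
        rw [hT]
        simp [Pi.single_eq_of_ne (Ne.symm h0), Pi.single_eq_of_ne (Ne.symm h1)]

theorem main2 (A : Finset (ℙ F (Fin (m + 2) → F)))
    (hA : IsArc A) (hc : m + 4 ≤ A.card)
    (hr : ∃ C, IsNRC C ∧ (A : Set (ℙ F (Fin (m + 2) → F))) ⊆ C) :
    Set.ncard {C | IsNRC C ∧ (A : Set (ℙ F (Fin (m + 2) → F))) ⊆ C} = 1 := by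
  classical
  obtain ⟨B, hBA, hB⟩ := Finset.exists_subset_card_eq (s := A) (n := m + 2) (by omega)
  set e := (B.equivFinOfCardEq hB).symm with he
  have h1 : 1 < (A \ B).card := by
    rw [card_sdiff_of_subset hBA]; omega
  obtain ⟨P, hPm, Q, hQm, hPQ⟩ := one_lt_card.mp h1
  rw [mem_sdiff] at hPm hQm
  have he' : Function.Injective (fun i => (e i).1) := fun i j h => e.injective (Subtype.ext h)
  obtain ⟨T, w, hw, hT, hTP⟩ := frame hA (fun i => (e i).1) he' (fun i => hBA (e i).2) P hPm.1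
    (fun i h => hPm.2 (by rw [← h]; exact (e i).2))
  obtain ⟨hset, hcard⟩ := ncard_arc A T (fun i => ⟨(e i).1, hBA (e i).2, w i, by
    rw [hT, smul_smul, mul_inv_cancel₀ (hw i), one_smul]⟩)
  rw [hcard]
  have hQe : ∀ j, (e j).1 ≠ Q := fun j h => hQm.2 (by rw [← h]; exact (e j).2)
  have hPe : ∀ j, (e j).1 ≠ P := fun j h => hPm.2 (by rw [← h]; exact (e j).2)
  obtain ⟨hy, hy2⟩ := frame2 hA (fun i => (e i).1) he' (fun i => hBA (e i).2) P Q hPm.1 hQm.1
    hPe hQe hPQ T w hT hTP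
  refine count2 (T.symm Q.rep) hy (hy2 0 1 (by simp)) _ ⟨P, hPm.1, hTP⟩ ⟨Q, hQm.1, rfl⟩ ?_
  obtain ⟨C, hC⟩ := hr
  have hC' : C ∈ {C | IsNRC C ∧ (A : Set (ℙ F (Fin (m + 2) → F))) ⊆ C} := hC
  rw [hset] at hC'
  obtain ⟨K, hK, -⟩ := hC'
  exact ⟨K, hK⟩

theorem fam_nonempty (y : Fin (m + 2) → F) (hy : ∀ i, y i ≠ 0) (hy2 : ∀ a b, a ≠ b → y a ≠ y b) :
    ∃ g : (Fin (m + 2) → F) ≃ₗ[F] (Fin (m + 2) → F),
      (∀ i, (Pi.single i (1 : F) : Fin (m + 2) → F) ∈ cone g) ∧ (fun _ => (1 : F)) ∈ cone g ∧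
        y ∈ cone g := by
  have h01 : (y 1)⁻¹ - (y 0)⁻¹ ≠ 0 := by
    intro h
    exact hy2 0 1 (by simp) (inv_injective (sub_eq_zero.mp h)).symm
  set u : Fin (m + 2) → F := fun i => ((y i)⁻¹ - (y 0)⁻¹) / ((y 1)⁻¹ - (y 0)⁻¹) with hu
  have hn : Nm u (fun i => 1 - u i) := by
    refine ⟨?_, ?_, ?_, ?_⟩
    · simp [hu]
    · simp only [hu]
      exact div_self h01
    · simp [hu]
    · simp only [hu]
      rw [div_self h01, sub_self]
  have hg : Good u (fun i => 1 - u i) := by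
    intro i j hij h
    have h1 : u i = u j := by linear_combination h
    apply hy2 i j hij
    simp only [hu] at h1
    rw [div_left_inj' h01] at h1
    exact inv_injective (sub_left_injective h1)
  obtain ⟨g, hgK⟩ := kc_eq_cone u _ hg
  refine ⟨g, fun i => ?_, ?_, ?_⟩
  · rw [← hgK]; exact single_mem _ _ hg i
  · rw [← hgK, one_mem_iff _ _ hn]; intro i; rfl
  · rw [← hgK, mem_kc_nm _ _ _ hn hy]
    intro i
    have h1 : u i * ((y 1)⁻¹ - (y 0)⁻¹) = (y i)⁻¹ - (y 0)⁻¹ := by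
      simp only [hu]
      exact div_mul_cancel₀ _ h01
    have h2 : u i / y 1 + (1 - u i) / y 0 = (y i)⁻¹ := by
      rw [div_eq_mul_inv, div_eq_mul_inv]; linear_combination h1
    rw [h2, mul_inv_cancel₀ (hy i)]

theorem exists2 (A : Finset (ℙ F (Fin (m + 2) → F)))
    (hA : IsArc A) (hc : A.card = m + 4) :
    ∃ C, IsNRC C ∧ (A : Set (ℙ F (Fin (m + 2) → F))) ⊆ C := by
  classical
  obtain ⟨B, hBA, hB⟩ := Finset.exists_subset_card_eq (s := A) (n := m + 2) (by omega)
  set e := (B.equivFinOfCardEq hB).symm with he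
  have h1 : (A \ B).card = 2 := by
    rw [card_sdiff_of_subset hBA]; omega
  obtain ⟨P, Q, hPQ, hABe⟩ := card_eq_two.mp h1
  have hPm : P ∈ A \ B := by rw [hABe]; simp
  have hQm : Q ∈ A \ B := by rw [hABe]; simp
  rw [mem_sdiff] at hPm hQm
  have he' : Function.Injective (fun i => (e i).1) := fun i j h => e.injective (Subtype.ext h)
  obtain ⟨T, w, hw, hT, hTP⟩ := frame hA (fun i => (e i).1) he' (fun i => hBA (e i).2) P hPm.1
    (fun i h => hPm.2 (by rw [← h]; exact (e i).2))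
  obtain ⟨hset, -⟩ := ncard_arc A T (fun i => ⟨(e i).1, hBA (e i).2, w i, by
    rw [hT, smul_smul, mul_inv_cancel₀ (hw i), one_smul]⟩)
  have hQe : ∀ j, (e j).1 ≠ Q := fun j h => hQm.2 (by rw [← h]; exact (e j).2)
  have hPe : ∀ j, (e j).1 ≠ P := fun j h => hPm.2 (by rw [← h]; exact (e j).2)
  obtain ⟨hy, hy2⟩ := frame2 hA (fun i => (e i).1) he' (fun i => hBA (e i).2) P Q hPm.1 hQm.1
    hPe hQe hPQ T w hT hTP
  obtain ⟨g, hg1, hg2, hg3⟩ := fam_nonempty (T.symm Q.rep) hy hy2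
  have hmem : {P : ℙ F (Fin (m + 2) → F) | T.symm P.rep ∈ cone g} ∈
      {C | IsNRC C ∧ (A : Set (ℙ F (Fin (m + 2) → F))) ⊆ C} := by
    rw [hset]
    refine ⟨cone g, ⟨⟨g, rfl⟩, hg1, ?_⟩, rfl⟩
    rintro y ⟨R, hR, rfl⟩
    show T.symm R.rep ∈ cone g
    by_cases hRB : R ∈ B
    · obtain ⟨i, hi⟩ := e.surjective ⟨R, hRB⟩
      have h1 := hT i
      simp only [hi] at h1
      rw [h1]
      exact cone_smul (hg1 i) (inv_ne_zero (hw i))
    · have : R ∈ A \ B := mem_sdiff.mpr ⟨hR, hRB⟩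
      rw [hABe, mem_insert, mem_singleton] at this
      rcases this with rfl | rfl
      · rw [hTP]; exact hg2
      · exact hg3
  exact ⟨_, hmem⟩

theorem arc_sub {k : ℕ} {A B : Finset (ℙ F (Fin k → F))} (hA : IsArc A) (hBA : B ⊆ A)
    (hB : k ≤ B.card) : IsArc B := by
  classical
  refine ⟨hB, fun f hf => ?_⟩
  have h1 := hA.2 f hf
  refine lt_of_le_of_lt (card_le_card ?_) h1
  intro P hP
  rw [mem_filter] at hP ⊢
  exact ⟨hBA hP.1, hP.2⟩

theorem threshold (n : ℕ) (hn : m + 5 ≤ n)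
    (h : ∀ A : Finset (ℙ F (Fin (m + 2) → F)), IsArc A → A.card = n →
      ∃ C, IsNRC C ∧ (A : Set (ℙ F (Fin (m + 2) → F))) ⊆ C)
    (A : Finset (ℙ F (Fin (m + 2) → F))) (hA : IsArc A) (hc : A.card = n + 1) :
      ∃ C, IsNRC C ∧ (A : Set (ℙ F (Fin (m + 2) → F))) ⊆ C := by
  classical
  obtain ⟨a, ha, b, hb, hab⟩ := one_lt_card.mp (show 1 < A.card by omega)
  obtain ⟨C1, hC1, h1⟩ := h (A.erase a) (arc_sub hA (erase_subset _ _)
    (by rw [card_erase_of_mem ha]; omega)) (by rw [card_erase_of_mem ha]; omega)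
  obtain ⟨C2, hC2, h2⟩ := h (A.erase b) (arc_sub hA (erase_subset _ _)
    (by rw [card_erase_of_mem hb]; omega)) (by rw [card_erase_of_mem hb]; omega)
  have hcd : ((A.erase a).erase b).card = n - 1 := by
    rw [card_erase_of_mem (mem_erase.mpr ⟨Ne.symm hab, hb⟩), card_erase_of_mem ha]; omega
  have hD1 : (((A.erase a).erase b : Finset (ℙ F (Fin (m + 2) → F))) :
      Set (ℙ F (Fin (m + 2) → F))) ⊆ C1 := by
    intro x hx
    exact h1 (mem_of_mem_erase hx)
  have hD2 : (((A.erase a).erase b : Finset (ℙ F (Fin (m + 2) → F))) :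
      Set (ℙ F (Fin (m + 2) → F))) ⊆ C2 := by
    intro x hx
    have hx' := mem_erase.mp (mem_coe.mp hx)
    exact h2 (mem_coe.mpr (mem_erase.mpr ⟨hx'.1, mem_of_mem_erase hx'.2⟩))
  have hu := main2 ((A.erase a).erase b) (arc_sub hA ((erase_subset _ _).trans (erase_subset _ _))
    (by omega)) (by omega) ⟨C1, hC1, hD1⟩
  rw [Set.ncard_eq_one] at hu
  obtain ⟨C, hC⟩ := hu
  have e1 : C1 = C := by
    have : C1 ∈ ({C} : Set _) := by rw [← hC]; exact ⟨hC1, hD1⟩
    exact this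
  have e2 : C2 = C := by
    have : C2 ∈ ({C} : Set _) := by rw [← hC]; exact ⟨hC2, hD2⟩
    exact this
  refine ⟨C1, hC1, fun x hx => ?_⟩
  by_cases hxa : x = a
  · rw [e1, ← e2]
    apply h2
    rw [hxa]
    exact mem_coe.mpr (mem_erase.mpr ⟨hab, ha⟩)
  · exact h1 (mem_coe.mpr (mem_erase.mpr ⟨hxa, hx⟩))

end

end Pool.Agent.TH615.NRC
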