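import Mathlib

set_option autoImplicit false

/-! # Normal rational curves through the unit vectors -/

namespace Pool.Agent.TH615.NRC

open Finset

variable {F : Type} [Field F] {k : ℕ}

/-- `x` is one of the vectors `(t^r, t^(r-1), ..., t, 1)`, `t ∈ F`, or `(1, 0, ..., 0)`, where
`r = k - 1`. -/
def IsStd (x : Fin k → F) : Prop :=
  (∃ t : F, ∀ i, x i = t ^ (k - 1 - (i : ℕ))) ∨ (∀ i, x i = if (i : ℕ) = 0 then 1 else 0)

/-- the homogeneous form -/
def hm (k : ℕ) (s t : F) : Fin k → F := fun i => s ^ (k - 1 - (i : ℕ)) * t ^ (i : ℕ)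

/-- the vectors representing the points of the image of the standard curve under `g` -/
def cone (g : (Fin k → F) ≃ₗ[F] (Fin k → F)) : Set (Fin k → F) :=
  {y | y ≠ 0 ∧ ∃ x, IsStd x ∧ ∃ c : F, y = c • g x}

/-- the curve given by the linear forms `s u_j + t v_j` -/
def Kc (u v : Fin k → F) : Set (Fin k → F) :=
  {y | y ≠ 0 ∧ ∃ s t c : F, y = c • fun i => ∏ j ∈ univ.erase i, (s * u j + t * v j)}

def Good (u v : Fin k → F) : Prop := ∀ i j, i ≠ j → u i * v j ≠ u j * v i

theorem hm_smul (lam s t : F) : hm k (lam * s) (lam * t) = lam ^ (k - 1) • hm k s t := by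
  funext i
  simp only [hm, Pi.smul_apply, smul_eq_mul, mul_pow]
  have h : lam ^ (k - 1) = lam ^ (k - 1 - (i : ℕ)) * lam ^ (i : ℕ) := by
    rw [← pow_add]; congr 1; have := i.2; omega
  rw [h]; ring

theorem mem_cone_iff (g : (Fin k → F) ≃ₗ[F] (Fin k → F)) (y : Fin k → F) :
    y ∈ cone g ↔ y ≠ 0 ∧ ∃ s t c : F, y = c • g (hm k s t) := by
  constructor
  · rintro ⟨h0, x, hx, c, hy⟩
    refine ⟨h0, ?_⟩
    rcases hx with ⟨t, ht⟩ | hx
    · refine ⟨t, 1, c, ?_⟩
      have : hm k t 1 = x := by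
        funext i
        rw [ht i]; simp [hm]
      rw [this]; exact hy
    · refine ⟨1, 0, c, ?_⟩
      have : hm k (1 : F) 0 = x := by
        funext i
        rw [hx i]; simp [hm, zero_pow_eq]
      rw [this]; exact hy
  · rintro ⟨h0, s, t, c, hy⟩
    refine ⟨h0, ?_⟩
    by_cases ht : t = 0
    · refine ⟨fun i => if (i : ℕ) = 0 then 1 else 0, Or.inr fun i => rfl, c * s ^ (k - 1), ?_⟩
      have : hm k s t = s ^ (k - 1) • (fun i : Fin k => if (i : ℕ) = 0 then (1 : F) else 0) := by
        funext i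
        simp only [hm, ht, Pi.smul_apply, smul_eq_mul, zero_pow_eq]
        split_ifs with h
        · simp [h]
        · simp
      rw [hy, this, map_smul, smul_smul]
    · refine ⟨fun i => (s / t) ^ (k - 1 - (i : ℕ)), Or.inl ⟨s / t, fun i => rfl⟩,
        c * t ^ (k - 1), ?_⟩
      have h1 := hm_smul (k := k) t (s / t) 1
      rw [mul_div_cancel₀ _ ht, mul_one] at h1
      have : hm k (s / t) 1 = fun i : Fin k => (s / t) ^ (k - 1 - (i : ℕ)) := by
        funext i; simp [hm]
      rw [this] at h1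
      rw [hy, h1, map_smul, smul_smul]

theorem coef {ι : Type} [DecidableEq ι] (S : Finset ι) (u v : ι → F) :
    ∃ c : ℕ → F, ∀ s t : F, ∏ j ∈ S, (s * u j + t * v j) =
      ∑ l ∈ range (S.card + 1), c l * (s ^ (S.card - l) * t ^ l) := by
  induction S using Finset.induction_on with
  | empty => exact ⟨fun _ => 1, fun s t => by simp⟩
  | insert a S ha ih =>
    obtain ⟨c, hc⟩ := ih
    refine ⟨fun l => (if l ≤ S.card then u a * c l else 0) +
      (if l = 0 then 0 else v a * c (l - 1)), fun s t => ?_⟩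
    rw [prod_insert ha, hc s t, card_insert_of_notMem ha]
    have hA : ∑ l ∈ range (S.card + 1 + 1),
        (if l ≤ S.card then u a * c l else 0) * (s ^ (S.card + 1 - l) * t ^ l) =
        ∑ l ∈ range (S.card + 1), (u a * c l) * (s ^ (S.card + 1 - l) * t ^ l) := by
      rw [sum_range_succ, if_neg (by omega), zero_mul, add_zero]
      refine sum_congr rfl fun l hl => ?_
      rw [if_pos (by have := mem_range.mp hl; omega)]
    have hB : ∑ l ∈ range (S.card + 1 + 1),
        (if l = 0 then 0 else v a * c (l - 1)) * (s ^ (S.card + 1 - l) * t ^ l) =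
        ∑ l ∈ range (S.card + 1), (v a * c l) * (s ^ (S.card + 1 - (l + 1)) * t ^ (l + 1)) := by
      rw [sum_range_succ', if_pos rfl, zero_mul, add_zero]
      refine sum_congr rfl fun l _ => ?_
      rw [if_neg (Nat.succ_ne_zero l), Nat.add_sub_cancel]
    have hC : ∀ l ∈ range (S.card + 1 + 1), ((if l ≤ S.card then u a * c l else 0) +
        (if l = 0 then 0 else v a * c (l - 1))) * (s ^ (S.card + 1 - l) * t ^ l) =
        (if l ≤ S.card then u a * c l else 0) * (s ^ (S.card + 1 - l) * t ^ l) +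
        (if l = 0 then 0 else v a * c (l - 1)) * (s ^ (S.card + 1 - l) * t ^ l) :=
      fun l _ => add_mul _ _ _
    rw [sum_congr rfl hC, sum_add_distrib, hA, hB, add_mul, mul_sum, mul_sum]
    congr 1
    · refine sum_congr rfl fun l hl => ?_
      rw [show S.card + 1 - l = (S.card - l) + 1 by have := mem_range.mp hl; omega, pow_succ]
      ring
    · refine sum_congr rfl fun l hl => ?_
      rw [show S.card + 1 - (l + 1) = S.card - l by omega, pow_succ]
      ring

theorem prod_sing (u v : Fin k → F) (i : Fin k) :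
    (fun l => ∏ j ∈ univ.erase l, (v i * u j + -u i * v j)) =
      (∏ j ∈ univ.erase i, (v i * u j + -u i * v j)) • (Pi.single i (1 : F) : Fin k → F) := by
  funext l
  simp only [Pi.smul_apply, smul_eq_mul]
  by_cases h : l = i
  · subst h; simp
  · rw [Pi.single_eq_of_ne h, mul_zero]
    refine prod_eq_zero (mem_erase.mpr ⟨Ne.symm h, mem_univ i⟩) ?_
    ring

theorem d_ne {u v : Fin k → F} (hg : Good u v) (i : Fin k) :
    ∏ j ∈ univ.erase i, (v i * u j + -u i * v j) ≠ 0 := by
  rw [prod_ne_zero_iff]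
  intro j hj
  have h := hg j i (ne_of_mem_erase hj)
  intro h1
  apply h
  linear_combination h1

theorem exists_equiv (u v : Fin k → F) (hg : Good u v) :
    ∃ g : (Fin k → F) ≃ₗ[F] (Fin k → F), ∀ s t : F,
      g (hm k s t) = fun i => ∏ j ∈ univ.erase i, (s * u j + t * v j) := by
  choose c hc using fun i : Fin k => coef (univ.erase i) u v
  have hG : ∀ s t : F, (Matrix.of fun i l : Fin k => c i (l : ℕ)).mulVecLin (hm k s t) =
      fun i => ∏ j ∈ univ.erase i, (s * u j + t * v j) := by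
    intro s t
    funext i
    rw [hc i s t, card_erase_of_mem (mem_univ i), card_univ, Fintype.card_fin]
    have hk : k - 1 + 1 = k := by have := i.2; omega
    rw [hk, ← Fin.sum_univ_eq_sum_range (fun l => c i l * (s ^ (k - 1 - l) * t ^ l)) k]
    simp [Matrix.mulVecLin_apply, Matrix.mulVec, dotProduct, hm]
  have hsurj : Function.Surjective (Matrix.of fun i l : Fin k => c i (l : ℕ)).mulVecLin := by
    intro y
    refine ⟨∑ i, (y i * (∏ j ∈ univ.erase i, (v i * u j + -u i * v j))⁻¹) •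
      hm k (v i) (-u i), ?_⟩
    rw [map_sum]
    simp_rw [map_smul, hG, prod_sing, smul_smul, mul_assoc, inv_mul_cancel₀ (d_ne hg _), mul_one]
    funext l
    rw [Finset.sum_apply]
    simp [Pi.single_apply]
  refine ⟨LinearEquiv.ofBijective _ ⟨LinearMap.injective_iff_surjective.mpr hsurj, hsurj⟩, ?_⟩
  intro s t
  rw [LinearEquiv.ofBijective_apply]
  exact hG s t

theorem kc_eq_cone (u v : Fin k → F) (hg : Good u v) :
    ∃ g : (Fin k → F) ≃ₗ[F] (Fin k → F), Kc u v = cone g := by
  obtain ⟨g, h⟩ := exists_equiv u v hg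
  refine ⟨g, ?_⟩
  ext y
  rw [mem_cone_iff]
  simp_rw [h]
  rfl

theorem single_mem (u v : Fin k → F) (hg : Good u v) (i : Fin k) :
    (Pi.single i (1 : F) : Fin k → F) ∈ Kc u v := by
  refine ⟨by simp, v i, -u i, (∏ j ∈ univ.erase i, (v i * u j + -u i * v j))⁻¹, ?_⟩
  rw [prod_sing, smul_smul, inv_mul_cancel₀ (d_ne hg i), one_smul]

theorem hm_zero (hk : 2 ≤ k) : hm k (0 : F) 0 = 0 := by
  funext i
  simp only [hm, Pi.zero_apply, zero_pow_eq]
  have := i.2
  split_ifs with h1 h2
  · omega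
  all_goals simp

theorem prop_of (a b c d : F) (h1 : ¬ (a = 0 ∧ b = 0)) (h2 : ¬ (c = 0 ∧ d = 0))
    (h : b * c = d * a) : ∃ lam : F, a = lam * c ∧ b = lam * d := by
  by_cases hd : d = 0
  · have hc : c ≠ 0 := fun hc => h2 ⟨hc, hd⟩
    have hb : b = 0 := by
      rw [hd, zero_mul] at h
      exact (mul_eq_zero.mp h).resolve_right hc
    exact ⟨a / c, by field_simp, by rw [hb, hd, mul_zero]⟩
  · exact ⟨b / d, by field_simp; linear_combination -h, by field_simp⟩

theorem of_cone (hk : 2 ≤ k) (g : (Fin k → F) ≃ₗ[F] (Fin k → F))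
    (h : ∀ i, (Pi.single i (1 : F) : Fin k → F) ∈ cone g) :
    ∃ u v, Good u v ∧ cone g = Kc u v := by
  simp_rw [mem_cone_iff] at h
  choose h0 s t c hc using h
  have hc0 : ∀ i, c i ≠ 0 := by
    intro i hi
    apply h0 i
    rw [hc i, hi, zero_smul]
  have hst : ∀ i, ¬ (s i = 0 ∧ t i = 0) := by
    rintro i ⟨h1, h2⟩
    apply h0 i
    rw [hc i, h1, h2, hm_zero hk, map_zero, smul_zero]
  have hgd : Good t (fun i => - s i) := by
    intro i j hij h1
    simp only at h1
    obtain ⟨lam, e1, e2⟩ := prop_of (s i) (t i) (s j) (t j) (hst i) (hst j)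
      (by linear_combination -h1)
    have h2 := hc i
    rw [e1, e2, hm_smul, map_smul] at h2
    have h3 := congrFun h2 i
    have h4 : g (hm k (s j) (t j)) = (c j)⁻¹ • (Pi.single j (1 : F) : Fin k → F) := by
      rw [hc j, smul_smul, inv_mul_cancel₀ (hc0 j), one_smul]
    rw [h4] at h3
    simp [Pi.single_eq_of_ne hij] at h3
  obtain ⟨g0, hg0⟩ := exists_equiv t (fun i => - s i) hgd
  set d : Fin k → F := fun i => ∏ j ∈ univ.erase i, (s i * t j + t i * -s j) with hd
  have hd0 : ∀ i, d i ≠ 0 := by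
    intro i
    rw [hd]
    simp only
    rw [prod_ne_zero_iff]
    intro j hj h1
    apply hgd j i (ne_of_mem_erase hj)
    linear_combination -h1
  have hs0 : ∀ i, g0 (hm k (s i) (t i)) = d i • (Pi.single i (1 : F) : Fin k → F) := by
    intro i
    rw [hg0]
    funext l
    simp only [Pi.smul_apply, smul_eq_mul]
    by_cases hl : l = i
    · subst hl; simp [hd]
    · rw [Pi.single_eq_of_ne hl, mul_zero]
      refine prod_eq_zero (mem_erase.mpr ⟨Ne.symm hl, mem_univ i⟩) ?_
      ring
  set δ : Fin k → F := fun i => (d i)⁻¹ * (c i)⁻¹ with hδ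
  have hδ0 : ∀ i, δ i ≠ 0 := fun i => mul_ne_zero (inv_ne_zero (hd0 i)) (inv_ne_zero (hc0 i))
  have hmap : g.toLinearMap ∘ₗ g0.symm.toLinearMap =
      LinearMap.pi (fun i => δ i • (LinearMap.proj i : (Fin k → F) →ₗ[F] F)) := by
    refine (Pi.basisFun F (Fin k)).ext fun i => ?_
    rw [Pi.basisFun_apply]
    have e1 : g0.symm (Pi.single i (1 : F) : Fin k → F) = (d i)⁻¹ • hm k (s i) (t i) := by
      rw [LinearEquiv.symm_apply_eq, map_smul, hs0, smul_smul, inv_mul_cancel₀ (hd0 i), one_smul]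
    have e2 : g (hm k (s i) (t i)) = (c i)⁻¹ • (Pi.single i (1 : F) : Fin k → F) := by
      rw [hc i, smul_smul, inv_mul_cancel₀ (hc0 i), one_smul]
    have e3 : (g.toLinearMap ∘ₗ g0.symm.toLinearMap) (Pi.single i (1 : F) : Fin k → F) =
        g (g0.symm (Pi.single i (1 : F) : Fin k → F)) := rfl
    rw [e3, e1, map_smul, e2, smul_smul]
    funext l
    simp only [Pi.smul_apply, smul_eq_mul, LinearMap.pi_apply, LinearMap.smul_apply,
      LinearMap.proj_apply]
    by_cases hl : l = i
    · subst hl; simp [hδ]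
    · simp [Pi.single_eq_of_ne hl]
  have hg1 : ∀ x l, g x l = δ l * g0 x l := by
    intro x l
    have := congrFun (congrArg DFunLike.coe hmap) (g0 x)
    have h2 := congrFun this l
    simpa using h2
  refine ⟨fun i => t i / δ i, fun i => - s i / δ i, ?_, ?_⟩
  · intro i j hij h1
    apply hgd i j hij
    have h2 := hδ0 i
    have h3 := hδ0 j
    field_simp at h1
    simpa using h1
  · have hD : ∏ j, δ j ≠ 0 := prod_ne_zero_iff.mpr fun j _ => hδ0 j
    have key : ∀ a b : F, ∀ l, ∏ j ∈ univ.erase l, (a * (t j / δ j) + b * (-s j / δ j)) =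
        (∏ j, δ j)⁻¹ * g (hm k a b) l := by
      intro a b l
      rw [hg1, hg0]
      simp only
      have e1 : ∀ j ∈ univ.erase l, a * (t j / δ j) + b * (-s j / δ j) =
          (a * t j + b * -s j) * (δ j)⁻¹ := by
        intro j _
        ring
      rw [prod_congr rfl e1, prod_mul_distrib, prod_inv_distrib, ← mul_prod_erase univ δ (mem_univ l),
        mul_inv]
      have := hδ0 l
      field_simp
    ext y
    rw [mem_cone_iff]
    constructor
    · rintro ⟨hy, a, b, e, he⟩
      refine ⟨hy, a, b, e * ∏ j, δ j, ?_⟩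
      funext l
      simp only [Pi.smul_apply, smul_eq_mul, key, he]
      field_simp
    · rintro ⟨hy, a, b, e, he⟩
      refine ⟨hy, a, b, e * (∏ j, δ j)⁻¹, ?_⟩
      funext l
      rw [he]
      simp only [Pi.smul_apply, smul_eq_mul, key]
      ring

theorem kc_sub (u v u' v' : Fin k → F) (α β γ δ : F) (hu : ∀ i, u' i = α * u i + β * v i)
    (hv : ∀ i, v' i = γ * u i + δ * v i) : Kc u' v' ⊆ Kc u v := by
  rintro y ⟨hy, s, t, c, h⟩
  refine ⟨hy, s * α + t * γ, s * β + t * δ, c, ?_⟩
  rw [h]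
  congr 1
  funext i
  refine prod_congr rfl fun j _ => ?_
  rw [hu, hv]; ring

theorem mem_kc (hk : 2 ≤ k) (u v y : Fin k → F) (hy : ∀ i, y i ≠ 0) :
    y ∈ Kc u v ↔ ∃ s t : F, ∀ i, y i * (s * u i + t * v i) = 1 := by
  have i0 : Fin k := ⟨0, by omega⟩
  constructor
  · rintro ⟨_, s, t, c, h⟩
    have h1 : ∀ i, y i = c * ∏ j ∈ univ.erase i, (s * u j + t * v j) := by
      intro i
      have := congrFun h i
      simpa using this
    have hc : c ≠ 0 := by
      intro hc
      apply hy i0
      rw [h1, hc, zero_mul]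
    have hl : ∀ j, s * u j + t * v j ≠ 0 := by
      intro j
      obtain ⟨i, hi⟩ : ∃ i : Fin k, i ≠ j := by
        by_cases hj : (j : ℕ) = 0
        · refine ⟨⟨1, by omega⟩, fun h => ?_⟩
          rw [← h] at hj; simp at hj
        · refine ⟨⟨0, by omega⟩, fun h => ?_⟩
          rw [← h] at hj; simp at hj
      have h2 : ∏ j ∈ univ.erase i, (s * u j + t * v j) ≠ 0 := by
        intro h3
        apply hy i
        rw [h1, h3, mul_zero]
      rw [prod_ne_zero_iff] at h2
      exact h2 j (mem_erase.mpr ⟨Ne.symm hi, mem_univ j⟩)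
    set κ : F := c * ∏ j, (s * u j + t * v j) with hκ
    have hκ0 : κ ≠ 0 := mul_ne_zero hc (prod_ne_zero_iff.mpr fun j _ => hl j)
    refine ⟨s / κ, t / κ, fun i => ?_⟩
    have h3 : y i * (s * u i + t * v i) = κ := by
      rw [h1, hκ, ← mul_prod_erase univ _ (mem_univ i)]; ring
    field_simp
    exact h3
  · rintro ⟨s, t, h⟩
    refine ⟨fun h0 => hy i0 (by rw [h0]; rfl), s, t, ∏ j, y j, ?_⟩
    funext i
    simp only [Pi.smul_apply, smul_eq_mul]
    rw [← mul_prod_erase univ y (mem_univ i), mul_assoc, ← prod_mul_distrib,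
      prod_congr rfl (fun j _ => h j)]
    simp

end Pool.Agent.TH615.NRC
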