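import Pool.Agent.TH615.NRC.Core

set_option autoImplicit false

/-! # Counting the normal rational curves through the unit vectors -/

namespace Pool.Agent.TH615.NRC

open Finset

variable {F : Type} [Field F] {m : ℕ}

def Nm (u v : Fin (m + 2) → F) : Prop := u 0 = 0 ∧ u 1 = 1 ∧ v 0 = 1 ∧ v 1 = 0

theorem normalize (u v : Fin (m + 2) → F) (hg : Good u v) :
    ∃ u' v', Good u' v' ∧ Nm u' v' ∧ Kc u' v' = Kc u v := by
  have hD : v 0 * u 1 - u 0 * v 1 ≠ 0 := by
    have := hg 0 1 (by simp)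
    intro h; apply this; linear_combination -h
  set D : F := v 0 * u 1 - u 0 * v 1 with hDd
  refine ⟨fun i => (v 0 * u i - u 0 * v i) / D, fun i => (-v 1 * u i + u 1 * v i) / D,
    ?_, ⟨?_, ?_, ?_, ?_⟩, ?_⟩
  · intro i j hij h
    apply hg i j hij
    field_simp at h
    have h2 : D * (u i * v j - u j * v i) = 0 := by
      rw [hDd]; linear_combination h
    have h3 := (mul_eq_zero.mp h2).resolve_left hD
    linear_combination h3
  · simp only
    rw [div_eq_zero_iff]; left; ring
  · simp only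
    rw [div_eq_one_iff_eq hD]
  · simp only
    rw [div_eq_one_iff_eq hD, hDd]; ring
  · simp only
    rw [div_eq_zero_iff]; left; ring
  · apply Set.Subset.antisymm
    · exact kc_sub _ _ _ _ (v 0 / D) (-u 0 / D) (-v 1 / D) (u 1 / D)
        (fun i => by ring) (fun i => by ring)
    · refine kc_sub _ _ _ _ (u 1) (u 0) (v 1) (v 0) (fun i => ?_) (fun i => ?_)
      · field_simp
        rw [hDd]; ring
      · field_simp
        rw [hDd]; ring

theorem mem_kc_nm (u v y : Fin (m + 2) → F) (hn : Nm u v) (hy : ∀ i, y i ≠ 0) :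
    y ∈ Kc u v ↔ ∀ i, y i * (u i / y 1 + v i / y 0) = 1 := by
  rw [mem_kc (by omega) u v y hy]
  obtain ⟨h1, h2, h3, h4⟩ := hn
  constructor
  · rintro ⟨s, t, h⟩ i
    have e0 := h 0
    have e1 := h 1
    rw [h1, h3] at e0
    rw [h2, h4] at e1
    have ht : t = 1 / y 0 := by
      rw [eq_div_iff (hy 0)]; linear_combination e0
    have hs : s = 1 / y 1 := by
      rw [eq_div_iff (hy 1)]; linear_combination e1
    have := h i
    rw [ht, hs] at this
    rw [← this]; ring
  · intro h
    refine ⟨1 / y 1, 1 / y 0, fun i => ?_⟩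
    calc y i * (1 / y 1 * u i + 1 / y 0 * v i) = y i * (u i / y 1 + v i / y 0) := by ring
      _ = 1 := h i

theorem kc_inj [Fintype F] (hq : m + 2 < Fintype.card F) (u v u' v' : Fin (m + 2) → F)
    (hg : Good u v) (hn : Nm u v) (hn' : Nm u' v') (h : Kc u v = Kc u' v') :
    u = u' ∧ v = v' := by
  classical
  have hu : ∀ j, j ≠ 0 → u j ≠ 0 := by
    intro j hj h0
    apply hg 0 j (Ne.symm hj)
    rw [hn.1, h0, zero_mul, zero_mul]
  set Z : Finset F := (univ.erase (0 : Fin (m + 2))).image (fun j => -v j / u j) with hZ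
  have hZc : Z.card ≤ m + 1 := by
    refine card_image_le.trans ?_
    rw [card_erase_of_mem (mem_univ _), card_univ, Fintype.card_fin]
    omega
  have hZ2 : 1 < (Zᶜ).card := by
    rw [card_compl]; omega
  have hgood : ∀ x, x ∈ Zᶜ → ∀ j, x * u j + v j ≠ 0 := by
    intro x hx j h0
    by_cases hj : j = 0
    · rw [hj, hn.1, hn.2.2.1] at h0
      simp at h0
    · rw [mem_compl] at hx
      apply hx
      rw [hZ, mem_image]
      refine ⟨j, mem_erase.mpr ⟨hj, mem_univ j⟩, ?_⟩
      rw [div_eq_iff (hu j hj)]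
      linear_combination -h0
  have key : ∀ x, x ∈ Zᶜ → ∀ i, u' i * x + v' i = x * u i + v i := by
    intro x hx i
    have hy : ∀ i, (x * u i + v i)⁻¹ ≠ 0 := fun i => inv_ne_zero (hgood x hx i)
    have h1 : (fun i => (x * u i + v i)⁻¹) ∈ Kc u v := by
      rw [mem_kc (by omega) _ _ _ hy]
      exact ⟨x, 1, fun i => by rw [one_mul, inv_mul_cancel₀ (hgood x hx i)]⟩
    rw [h, mem_kc_nm _ _ _ hn' hy] at h1
    have h2 := h1 i
    rw [hn.1, hn.2.1, hn.2.2.1, hn.2.2.2] at h2
    simp only [mul_zero, mul_one, zero_add, add_zero, inv_one, div_one, div_inv_eq_mul] at h2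
    have h3 := hgood x hx i
    field_simp at h2
    linear_combination h2
  obtain ⟨x1, hx1, x2, hx2, hne⟩ := one_lt_card.mp hZ2
  have hu' : ∀ i, u i = u' i := by
    intro i
    have e1 := key x1 hx1 i
    have e2 := key x2 hx2 i
    have e3 : (x1 - x2) * (u i - u' i) = 0 := by linear_combination e2 - e1
    have e4 := (mul_eq_zero.mp e3).resolve_left (sub_ne_zero.mpr hne)
    exact sub_eq_zero.mp e4
  refine ⟨funext hu', funext fun i => ?_⟩
  have e1 := key x1 hx1 i
  rw [hu' i] at e1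
  linear_combination -e1

/-- the cones of normal rational curves which contain the unit vectors and the vectors of `W` -/
def Fam (W : Set (Fin (m + 2) → F)) : Set (Set (Fin (m + 2) → F)) :=
  {K | (∃ g, K = cone g) ∧ (∀ i, (Pi.single i (1 : F) : Fin (m + 2) → F) ∈ K) ∧ W ⊆ K}

theorem fam_eq (W : Set (Fin (m + 2) → F)) :
    Fam W = (fun p : (Fin (m + 2) → F) × (Fin (m + 2) → F) => Kc p.1 p.2) ''
      {p | Good p.1 p.2 ∧ Nm p.1 p.2 ∧ W ⊆ Kc p.1 p.2} := by
  ext K
  constructor
  · rintro ⟨⟨g, rfl⟩, h1, h2⟩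
    obtain ⟨u, v, hg, h⟩ := of_cone (by omega) g h1
    obtain ⟨u', v', hg', hn', h'⟩ := normalize u v hg
    refine ⟨(u', v'), ⟨hg', hn', ?_⟩, ?_⟩
    · simp only
      rw [h', ← h]; exact h2
    · simp only
      rw [h', h]
  · rintro ⟨⟨u, v⟩, ⟨hg, hn, hW⟩, rfl⟩
    exact ⟨kc_eq_cone u v hg, fun i => single_mem u v hg i, hW⟩

theorem ncard_fam [Fintype F] (hq : m + 2 < Fintype.card F) (W : Set (Fin (m + 2) → F)) :
    (Fam W).ncard = Set.ncard {p : (Fin (m + 2) → F) × (Fin (m + 2) → F) |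
      Good p.1 p.2 ∧ Nm p.1 p.2 ∧ W ⊆ Kc p.1 p.2} := by
  rw [fam_eq]
  apply Set.InjOn.ncard_image
  rintro ⟨u, v⟩ ⟨hg, hn, _⟩ ⟨u', v'⟩ ⟨_, hn', _⟩ h
  obtain ⟨h1, h2⟩ := kc_inj hq u v u' v' hg hn hn' h
  rw [h1, h2]

theorem good_cons (x y : Fin m → F) :
    Good (Fin.cons 0 (Fin.cons 1 x) : Fin (m + 2) → F) (Fin.cons 1 (Fin.cons 0 y)) ↔
      (∀ i, x i ≠ 0) ∧ (∀ i, y i ≠ 0) ∧ ∀ i j, i ≠ j → x i * y j ≠ x j * y i := by
  unfold Good
  simp only [Fin.forall_fin_succ, Fin.cons_zero, Fin.cons_succ]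
  constructor
  · rintro ⟨⟨_, _, h1⟩, ⟨_, _, h2⟩, h3⟩
    refine ⟨fun i h => h1 i (by simp [Fin.ext_iff]) (by simp [h]),
      fun i h => h2 i (by simp [Fin.ext_iff]) (by simp [h]), fun i j hij => ?_⟩
    exact (h3 i).2.2 j (by simpa using hij)
  · rintro ⟨h1, h2, h3⟩
    refine ⟨⟨by simp, by simp, fun i _ h => h1 i (by simpa using h.symm)⟩,
      ⟨by simp, by simp, fun i _ h => h2 i (by simpa using h)⟩, fun i => ⟨?_, ?_, fun j hij => ?_⟩⟩
    · intro _ h; exact h1 i (by simpa using h)
    · intro _ h; exact h2 i (by simpa using h.symm)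
    · exact h3 i j (by simpa using hij)

theorem eq_cons (u v : Fin (m + 2) → F) (hn : Nm u v) :
    u = Fin.cons 0 (Fin.cons 1 fun i => u i.succ.succ) ∧
      v = Fin.cons 1 (Fin.cons 0 fun i => v i.succ.succ) := by
  obtain ⟨h1, h2, h3, h4⟩ := hn
  constructor
  · funext i
    refine Fin.cases ?_ (fun i => Fin.cases ?_ (fun i => ?_) i) i
    · rw [Fin.cons_zero]; exact h1
    · rw [Fin.cons_succ, Fin.cons_zero]; exact h2
    · rw [Fin.cons_succ, Fin.cons_succ]
  · funext i
    refine Fin.cases ?_ (fun i => Fin.cases ?_ (fun i => ?_) i) i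
    · rw [Fin.cons_zero]; exact h3
    · rw [Fin.cons_succ, Fin.cons_zero]; exact h4
    · rw [Fin.cons_succ, Fin.cons_succ]

theorem nm_cons (x y : Fin m → F) :
    Nm (Fin.cons 0 (Fin.cons 1 x) : Fin (m + 2) → F) (Fin.cons 1 (Fin.cons 0 y)) :=
  ⟨rfl, rfl, rfl, rfl⟩

theorem count0 [Fintype F] (hq : m + 2 < Fintype.card F) :
    (Fam (∅ : Set (Fin (m + 2) → F))).ncard =
      (Fintype.card F - 1) ^ m * (Fintype.card F - 1).descFactorial m := by
  classical
  rw [ncard_fam hq]
  set Ψ : (Fin m → Fˣ) × (Fin m ↪ Fˣ) → (Fin (m + 2) → F) × (Fin (m + 2) → F) := fun p =>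
    (Fin.cons 0 (Fin.cons 1 fun i => (p.1 i : F) * (p.2 i : F)),
      Fin.cons 1 (Fin.cons 0 fun i => (p.1 i : F))) with hΨ
  have hinj : Function.Injective Ψ := by
    rintro ⟨a, r⟩ ⟨a', r'⟩ h
    rw [hΨ] at h
    simp only [Prod.mk.injEq] at h
    obtain ⟨h1, h2⟩ := h
    have ha : ∀ i, (a i : F) = a' i := by
      intro i
      have := congrFun h2 i.succ.succ
      simpa only [Fin.cons_succ] using this
    have hr : ∀ i, (r i : F) = r' i := by
      intro i
      have := congrFun h1 i.succ.succ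
      simp only [Fin.cons_succ] at this
      rw [ha i] at this
      exact mul_left_cancel₀ (a' i).ne_zero this
    have e1 : a = a' := funext fun i => Units.ext (ha i)
    have e2 : r = r' := Function.Embedding.ext fun i => Units.ext (hr i)
    rw [e1, e2]
  have hrange : {p : (Fin (m + 2) → F) × (Fin (m + 2) → F) |
      Good p.1 p.2 ∧ Nm p.1 p.2 ∧ (∅ : Set (Fin (m + 2) → F)) ⊆ Kc p.1 p.2} = Ψ '' Set.univ := by
    ext ⟨u, v⟩
    constructor
    · rintro ⟨hg, hn, -⟩
      obtain ⟨e1, e2⟩ := eq_cons u v hn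
      simp only at hg e1 e2
      rw [e1, e2, good_cons] at hg
      obtain ⟨h1, h2, h3⟩ := hg
      refine ⟨(fun i => Units.mk0 (v i.succ.succ) (h2 i),
        ⟨fun i => Units.mk0 (u i.succ.succ / v i.succ.succ) (div_ne_zero (h1 i) (h2 i)), ?_⟩),
        trivial, ?_⟩
      · intro i j hij
        by_contra hne
        apply h3 i j hne
        have := congrArg Units.val hij
        simp only [Units.val_mk0] at this
        rwa [div_eq_div_iff (h2 i) (h2 j)] at this
      · rw [hΨ]
        simp only [Units.val_mk0, Function.Embedding.coeFn_mk, Prod.mk.injEq]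
        constructor
        · conv_rhs => rw [e1]
          congr 2
          funext i
          rw [mul_div_cancel₀ _ (h2 i)]
        · conv_rhs => rw [e2]
    · rintro ⟨⟨a, r⟩, -, h⟩
      rw [hΨ] at h
      simp only [Prod.mk.injEq] at h
      obtain ⟨rfl, rfl⟩ := h
      refine ⟨?_, nm_cons _ _, Set.empty_subset _⟩
      simp only
      rw [good_cons]
      refine ⟨fun i => mul_ne_zero (Units.ne_zero _) (Units.ne_zero _), fun i => Units.ne_zero _,
        fun i j hij h => hij ?_⟩
      have h1 : (r i : F) = r j := by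
        have h2 : ((a i : F) * a j) * (r i : F) = ((a i : F) * a j) * r j := by
          linear_combination h
        exact mul_left_cancel₀ (mul_ne_zero (Units.ne_zero _) (Units.ne_zero _)) h2
      exact r.injective (Units.ext h1)
  rw [hrange, Set.ncard_image_of_injective _ hinj, Set.ncard_univ, Nat.card_eq_fintype_card,
    Fintype.card_prod, Fintype.card_embedding_eq, Fintype.card_fun, Fintype.card_units,
    Fintype.card_fin]

theorem one_mem_iff (u v : Fin (m + 2) → F) (hn : Nm u v) :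
    (fun _ => (1 : F)) ∈ Kc u v ↔ ∀ i, v i = 1 - u i := by
  rw [mem_kc_nm u v _ hn (fun _ => one_ne_zero)]
  refine forall_congr' fun i => ?_
  rw [one_mul, div_one, div_one, eq_sub_iff_add_eq, add_comm]

theorem count1 [Fintype F] (hq : m + 2 < Fintype.card F) :
    (Fam ({fun _ => (1 : F)} : Set (Fin (m + 2) → F))).ncard =
      (Fintype.card F - 2).descFactorial m := by
  classical
  rw [ncard_fam hq]
  set Ψ : (Fin m ↪ {x : F // x ≠ 0 ∧ x ≠ 1}) → (Fin (m + 2) → F) × (Fin (m + 2) → F) := fun p =>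
    (Fin.cons 0 (Fin.cons 1 fun i => (p i : F)),
      Fin.cons 1 (Fin.cons 0 fun i => 1 - (p i : F))) with hΨ
  have hinj : Function.Injective Ψ := by
    rintro a a' h
    rw [hΨ] at h
    simp only [Prod.mk.injEq] at h
    obtain ⟨h1, -⟩ := h
    refine Function.Embedding.ext fun i => Subtype.ext ?_
    have := congrFun h1 i.succ.succ
    simpa only [Fin.cons_succ] using this
  have hrange : {p : (Fin (m + 2) → F) × (Fin (m + 2) → F) |
      Good p.1 p.2 ∧ Nm p.1 p.2 ∧ ({fun _ => (1 : F)} : Set (Fin (m + 2) → F)) ⊆ Kc p.1 p.2} =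
      Ψ '' Set.univ := by
    ext ⟨u, v⟩
    constructor
    · rintro ⟨hg, hn, h1⟩
      simp only at hg hn h1
      rw [Set.singleton_subset_iff, one_mem_iff u v hn] at h1
      obtain ⟨e1, e2⟩ := eq_cons u v hn
      rw [e1, e2, good_cons] at hg
      obtain ⟨g1, g2, g3⟩ := hg
      refine ⟨⟨fun i => ⟨u i.succ.succ, g1 i, fun h => g2 i (by rw [h1, h, sub_self])⟩, ?_⟩,
        trivial, ?_⟩
      · intro i j hij
        by_contra hne
        apply g3 i j hne
        have := congrArg Subtype.val hij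
        simp only at this
        rw [h1, h1, this]
      · rw [hΨ]
        simp only [Function.Embedding.coeFn_mk, Prod.mk.injEq]
        constructor
        · exact e1.symm
        · conv_rhs => rw [e2]
          congr 2
          funext i
          exact (h1 _).symm
    · rintro ⟨a, -, h⟩
      rw [hΨ] at h
      simp only [Prod.mk.injEq] at h
      obtain ⟨rfl, rfl⟩ := h
      refine ⟨?_, nm_cons _ _, ?_⟩
      · simp only
        rw [good_cons]
        refine ⟨fun i => (a i).2.1, fun i => sub_ne_zero.mpr (Ne.symm (a i).2.2),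
          fun i j hij h => hij ?_⟩
        have h1 : (a i : F) = a j := by linear_combination h
        exact a.injective (Subtype.ext h1)
      · simp only
        rw [Set.singleton_subset_iff, one_mem_iff _ _ (nm_cons _ _)]
        intro i
        refine Fin.cases ?_ (fun i => Fin.cases ?_ (fun i => ?_) i) i
        · simp
        · simp
        · simp only [Fin.cons_succ]
  have hcard : Fintype.card {x : F // x ≠ 0 ∧ x ≠ 1} = Fintype.card F - 2 := by
    rw [Fintype.card_subtype]
    have : (univ.filter fun x : F => x ≠ 0 ∧ x ≠ 1) = ({0, 1} : Finset F)ᶜ := by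
      ext x; simp
    rw [this, card_compl, card_pair zero_ne_one]
  rw [hrange, Set.ncard_image_of_injective _ hinj, Set.ncard_univ, Nat.card_eq_fintype_card,
    Fintype.card_embedding_eq, Fintype.card_fin, hcard]

theorem count2 (w : Fin (m + 2) → F)
    (hw : ∀ i, w i ≠ 0) (hw2 : w 0 ≠ w 1) (W : Set (Fin (m + 2) → F))
    (h1 : (fun _ => (1 : F)) ∈ W) (h2 : w ∈ W) (hne : (Fam W).Nonempty) :
    (Fam W).ncard = 1 := by
  rw [Set.ncard_eq_one]
  obtain ⟨K, hK⟩ := hne
  refine ⟨K, Set.eq_singleton_iff_unique_mem.mpr ⟨hK, fun K' hK' => ?_⟩⟩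
  rw [fam_eq] at hK hK'
  obtain ⟨⟨u, v⟩, ⟨hg, hn, hs⟩, rfl⟩ := hK
  obtain ⟨⟨u', v'⟩, ⟨hg', hn', hs'⟩, rfl⟩ := hK'
  simp only at *
  have a1 := (one_mem_iff u v hn).mp (hs h1)
  have a2 := (one_mem_iff u' v' hn').mp (hs' h1)
  have b1 := (mem_kc_nm u v w hn hw).mp (hs h2)
  have b2 := (mem_kc_nm u' v' w hn' hw).mp (hs' h2)
  have hu : ∀ i, u' i = u i := by
    intro i
    have c1 := b1 i
    have c2 := b2 i
    rw [a1 i] at c1
    rw [a2 i] at c2
    have d0 := hw 0
    have d1 := hw 1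
    have di := hw i
    have c3 : u i / w 1 + (1 - u i) / w 0 = u' i / w 1 + (1 - u' i) / w 0 :=
      mul_left_cancel₀ di (c1.trans c2.symm)
    field_simp at c3
    have c4 : (w 0 - w 1) * (u' i - u i) = 0 := by linear_combination -c3
    exact sub_eq_zero.mp ((mul_eq_zero.mp c4).resolve_left (sub_ne_zero.mpr hw2))
  have hu' : u' = u := funext hu
  have hv' : v' = v := funext fun i => by rw [a1, a2, hu]
  rw [hu', hv']

end Pool.Agent.TH615.NRC
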