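import Pool.Agent.TH615.NRC.Arc

/-!
# The number of normal rational curves through an arc (MP_8a9ebc_co, Q2)

Let `q > k >= 2` and let `A` be an `n`-arc of `PG(k-1, q)`, `n >= k`.  The number of normal rational
curves of `PG(k-1, q)` which contain `A` is

* `(q-1)^(k-2) (q-1)(q-2)...(q-k+2) = (q-1)^(k-1) (q-2)...(q-k+2)` if `n = k`,
* `(q-2)(q-3)...(q-k+1)` if `n = k+1`,
* `1` if `n = k+2`,
* `1` if `n >= k+2` and `A` is contained in some normal rational curve.

So the number is determined for every `n` in the set asked for in Q1.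
-/

set_option autoImplicit false

open Finset Pool.Agent.TH615.NRC
open scoped LinearAlgebra.Projectivization

namespace Pool.Agent.Results.MP_8a9ebc_co.CurvesThroughAnArc

theorem result (F : Type) [Field F] [Fintype F] (k : ℕ) (hk : 2 ≤ k) (hq : k < Fintype.card F)
    (A : Finset (ℙ F (Fin k → F))) (hA : IsArc A) :
    (A.card = k → Set.ncard {C | IsNRC C ∧ (A : Set (ℙ F (Fin k → F))) ⊆ C} =
      (Fintype.card F - 1) ^ (k - 2) * (Fintype.card F - 1).descFactorial (k - 2)) ∧
    (A.card = k + 1 → Set.ncard {C | IsNRC C ∧ (A : Set (ℙ F (Fin k → F))) ⊆ C} =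
      (Fintype.card F - 2).descFactorial (k - 2)) ∧
    (A.card = k + 2 → Set.ncard {C | IsNRC C ∧ (A : Set (ℙ F (Fin k → F))) ⊆ C} = 1) ∧
    (k + 2 ≤ A.card → (∃ C, IsNRC C ∧ (A : Set (ℙ F (Fin k → F))) ⊆ C) →
      Set.ncard {C | IsNRC C ∧ (A : Set (ℙ F (Fin k → F))) ⊆ C} = 1) := by
  obtain ⟨m, rfl⟩ : ∃ m, k = m + 2 := ⟨k - 2, by omega⟩
  refine ⟨fun h => ?_, fun h => ?_, fun h => ?_, fun h h2 => ?_⟩
  · exact main0 hq A hA h
  · exact main1 hq A hA h
  · exact main2 A hA (by omega) (exists2 A hA (by omega))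
  · exact main2 A hA (by omega) h2

end Pool.Agent.Results.MP_8a9ebc_co.CurvesThroughAnArc
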